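import Mathlib

set_option autoImplicit false

open Set Cardinal

namespace Pool.Agent.Results.MP_5f3b23_lc.Supercompact

/-- `B` is a cofinal subset of `α`: a subset of `α` whose supremum is `α`. -/
def Cof (B : Set Ordinal.{0}) (α : Ordinal.{0}) : Prop := B ⊆ Iio α ∧ sSup B = α

/-- The set `A(d)` for `d : θ × θ → λ`. -/
def ASet (θ : Ordinal.{0}) (d : Ordinal.{0} → Ordinal.{0} → Ordinal.{0}) : Set Ordinal.{0} :=
  {α | α < θ ∧ ∀ B, Cof B α → ∃ η < α, ∃ B' ⊆ B, Cof B' α ∧ InjOn (d η) B'}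

/-- `C` is a closed unbounded subset of `θ`. -/
def Club (C : Set Ordinal.{0}) (θ : Ordinal.{0}) : Prop :=
  C ⊆ Iio θ ∧ (∀ a < θ, ∃ c ∈ C, a < c) ∧ ∀ α < θ, 0 < α → sSup (C ∩ Iio α) = α → α ∈ C

/-- `S` is stationary in `θ`: it meets every club of `θ`. -/
def Stat (S : Set Ordinal.{0}) (θ : Ordinal.{0}) : Prop := ∀ C, Club C θ → (S ∩ C).Nonempty

/-- `U` is a `κ`-complete fine normal ultrafilter on `P_κ(θ)`. -/
def SCMeasure (κ : Cardinal.{0}) (θ : Ordinal.{0}) (U : Ultrafilter (Set Ordinal.{0})) : Prop :=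
  {x | x ⊆ Iio θ ∧ #x < Cardinal.lift.{1} κ} ∈ U ∧
  (∀ β < θ, {x | β ∈ x} ∈ U) ∧
  (∀ (ι : Type) (f : ι → Set (Set Ordinal.{0})), #ι < κ → (∀ i, f i ∈ U) → (⋂ i, f i) ∈ U) ∧
  ∀ f : Set Ordinal.{0} → Ordinal.{0}, {x | f x ∈ x} ∈ U → ∃ β, {x | f x = β} ∈ U

/-- `κ` is a supercompact cardinal. -/
def Supercompact (κ : Cardinal.{0}) : Prop :=
  ℵ₀ < κ ∧ ∀ θ : Cardinal.{0}, κ ≤ θ → ∃ U, SCMeasure κ θ.ord U

/-- The statement of Q1 at `lam`: for every `d : λ⁺ × λ⁺ → λ` the set `E^{λ⁺}_{≠ cf λ} \ A(d)`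
is stationary in `λ⁺`. -/
def Q (lam : Cardinal.{0}) : Prop :=
  ∀ d : Ordinal.{0} → Ordinal.{0} → Ordinal.{0},
    (∀ η < (Order.succ lam).ord, ∀ β < (Order.succ lam).ord, d η β < lam.ord) →
    Stat ({α | α < (Order.succ lam).ord ∧ α.cof ≠ lam.ord.cof} \ ASet (Order.succ lam).ord d)
      (Order.succ lam).ord

theorem cofam (α : Ordinal.{0}) (ι : Type) (h : #ι = α.cof) :
    ∃ f : ι → Ordinal.{0}, (∀ i, f i < α) ∧ ∀ a < α, ∃ i, a ≤ f i := by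
  obtain ⟨s, hs, hc⟩ := Order.exists_cof_eq (α := Iio α)
  rw [Ordinal.cof_Iio, ← Ordinal.lift_cof, ← h] at hc
  have : Nonempty (ι ≃ s) := by
    rw [← Cardinal.lift_mk_eq'.{0, 1}, hc]
    simp
  obtain ⟨e⟩ := this
  refine ⟨fun i => (e i).1.1, fun i => (e i).1.2, fun a ha => ?_⟩
  obtain ⟨b, hb, hab⟩ := hs ⟨a, ha⟩
  exact ⟨e.symm ⟨b, hb⟩, by simp only [Equiv.apply_symm_apply]; exact hab⟩

theorem bdd {lam : Cardinal.{0}} (hl : ℵ₀ ≤ lam) {s : Set Ordinal.{0}}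
    (hs : ∀ a ∈ s, a < (Order.succ lam).ord) (hc : #s ≤ Cardinal.lift.{1} lam) :
    ∃ γ < (Order.succ lam).ord, ∀ a ∈ s, a < γ := by
  have hb : BddAbove s := ⟨_, fun a ha => (hs a ha).le⟩
  have h1 : sSup s < (Order.succ lam).ord := by
    apply Ordinal.sSup_lt_of_lt_cof _ hs
    rw [← Ordinal.lift_cof, (isRegular_succ hl).cof_ord]
    exact hc.trans_lt (Cardinal.lift_lt.2 (Order.lt_succ lam))
  refine ⟨sSup s + 1, ?_, fun a ha => (le_csSup hb ha).trans_lt (lt_add_one _)⟩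
  exact (isSuccLimit_ord (hl.trans (Order.le_succ _))).succ_lt h1

section
variable {κ : Cardinal.{0}} {θ : Ordinal.{0}} {U : Ultrafilter (Set Ordinal.{0})}

theorem normal' (hU : SCMeasure κ θ U) (P : Set Ordinal.{0} → Ordinal.{0} → Prop)
    (h : {x | ∃ β ∈ x, P x β} ∈ U) : ∃ β < θ, {x | P x β} ∈ U := by
  classical
  let f : Set Ordinal.{0} → Ordinal.{0} := fun x =>
    if h : ∃ β ∈ x, P x β then h.choose else 0
  have hf : ∀ x, (∃ β ∈ x, P x β) → f x ∈ x ∧ P x (f x) := fun x hx => by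
    simp only [f, dif_pos hx]
    exact hx.choose_spec
  obtain ⟨β, hβ⟩ := hU.2.2.2 f (Filter.mem_of_superset h fun x hx => (hf x hx).1)
  have h2 : {x | β ∈ x ∧ P x β} ∈ (U : Filter _) := by
    filter_upwards [h, hβ] with x hx hxβ
    rw [← hxβ]; exact hf x hx
  obtain ⟨x, hx, hx'⟩ := Ultrafilter.nonempty_of_mem (Filter.inter_mem h2 hU.1)
  exact ⟨β, hx'.1 hx.1, Filter.mem_of_superset h2 fun y hy => hy.2⟩

theorem comp' (hU : SCMeasure κ θ U) {ι : Type} (hι : #ι < κ) (P : Set Ordinal.{0} → ι → Prop)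
    (h : {x | ∃ i, P x i} ∈ U) : ∃ i, {x | P x i} ∈ U := by
  by_contra hh
  push Not at hh
  have h1 := hU.2.2.1 ι (fun i => {x | P x i}ᶜ) hι fun i => Ultrafilter.compl_mem_iff_notMem.2 (hh i)
  obtain ⟨x, ⟨i, hi⟩, hx⟩ := Ultrafilter.nonempty_of_mem (Filter.inter_mem h h1)
  exact mem_iInter.1 hx i hi
end

theorem main {κ lam : Cardinal.{0}} {U : Ultrafilter (Set Ordinal.{0})} (hl : lam.IsStrongLimit)
    (hc : lam.ord.cof < κ) (hκ : κ ≤ lam) (hU : SCMeasure κ (Order.succ lam).ord U) : Q lam := by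
  classical
  intro d hd C hC
  set θ := (Order.succ lam).ord with hθ
  have hl0 : ℵ₀ ≤ lam := hl.aleph0_le
  have hθl : Order.IsSuccLimit θ := isSuccLimit_ord (hl0.trans (Order.le_succ _))
  have hll : Order.IsSuccLimit lam.ord := isSuccLimit_ord hl0
  let ι := lam.ord.cof.out
  have hι : #ι = lam.ord.cof := mk_out _
  have hικ : #ι < κ := hι ▸ hc
  have hbι : ∀ g : ι → Ordinal.{0}, (∀ i, g i < θ) → ∃ γ < θ, ∀ i, g i < γ := by
    intro g hg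
    obtain ⟨γ, h1, h2⟩ := bdd hl0 (s := range g) (by rintro _ ⟨i, rfl⟩; exact hg i) (by
      have := mk_range_le_lift (f := g)
      simp only [Cardinal.lift_uzero] at this
      exact this.trans (Cardinal.lift_le.2 (hικ.le.trans hκ)))
    exact ⟨γ, h1, fun i => h2 _ ⟨i, rfl⟩⟩
  obtain ⟨s, hs1, hs2⟩ := cofam lam.ord ι hι
  have hs3 : ∀ a < lam.ord, ∃ i, a < s i := fun a ha => by
    obtain ⟨i, hi⟩ := hs2 _ (hll.succ_lt ha)
    exact ⟨i, Order.succ_le_iff.1 hi⟩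
  -- good sets
  let G : Set Ordinal.{0} → Prop := fun x =>
    x.Nonempty ∧ BddAbove x ∧ sSup x < θ ∧ x ⊆ Iio (sSup x) ∧ sSup x ∈ C
  have hG : {x | G x} ∈ U := by
    have ha : {x | ∀ β ∈ x, ∃ c ∈ C, β < c ∧ c ∈ x} ∈ U := by
      by_contra hh
      have h1 : {x | ∃ β ∈ x, ∀ c ∈ C, β < c → c ∉ x} ∈ U := by
        refine Filter.mem_of_superset (Ultrafilter.compl_mem_iff_notMem.2 hh) fun x hx => ?_
        simp only [mem_compl_iff, mem_ofPred_eq] at hx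
        push Not at hx
        exact hx
      obtain ⟨β, hβ, h2⟩ := normal' hU _ h1
      obtain ⟨c, hc1, hc2⟩ := hC.2.1 β hβ
      obtain ⟨x, hx1, hx2⟩ :=
        Ultrafilter.nonempty_of_mem (Filter.inter_mem h2 (hU.2.1 c (hC.1 hc1)))
      exact hx1 c hc1 hc2 hx2
    have h0 := hU.2.1 0 hθl.bot_lt
    filter_upwards [ha, h0, hU.1] with x hx hx0 hx1
    have hb : BddAbove x := ⟨θ, fun a ha => (hx1.1 ha).le⟩
    obtain ⟨γ, hγ, hγ'⟩ := bdd hl0 (s := x) (fun a ha => hx1.1 ha)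
      (hx1.2.le.trans (Cardinal.lift_le.2 hκ))
    have hlt : sSup x < θ := (csSup_le ⟨0, hx0⟩ fun a ha => (hγ' a ha).le).trans_lt hγ
    have hsub : x ⊆ Iio (sSup x) := fun β hβ => by
      obtain ⟨c, -, h1, h2⟩ := hx β hβ
      exact h1.trans_le (le_csSup hb h2)
    refine ⟨⟨0, hx0⟩, hb, hlt, hsub, hC.2.2 _ hlt (hsub hx0) (le_antisymm ?_ ?_)⟩
    · exact csSup_le' fun a ha => ha.2.le
    · refine csSup_le ⟨0, hx0⟩ fun β hβ => ?_
      obtain ⟨c, h0, h1, h2⟩ := hx β hβ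
      exact h1.le.trans (le_csSup ⟨sSup x, fun a ha => ha.2.le⟩ ⟨h0, hsub h2⟩)
  -- cofinality
  have hB : {x | G x ∧ (sSup x).cof = lam.ord.cof} ∉ U := by
    intro h
    have : ∀ x : Set Ordinal.{0}, ∃ f : ι → Ordinal.{0}, G x ∧ (sSup x).cof = lam.ord.cof →
        (∀ i, f i ∈ x) ∧ ∀ a < sSup x, ∃ i, a ≤ f i := by
      intro x
      by_cases hx : G x ∧ (sSup x).cof = lam.ord.cof
      · obtain ⟨f, hf1, hf2⟩ := cofam (sSup x) ι (hι.trans hx.2.symm)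
        choose g hg1 hg2 using fun i => exists_lt_of_lt_csSup hx.1.1 (hf1 i)
        refine ⟨g, fun _ => ⟨hg1, fun a ha => ?_⟩⟩
        obtain ⟨i, hi⟩ := hf2 a ha
        exact ⟨i, hi.trans (hg2 i).le⟩
      · exact ⟨fun _ => 0, fun h => absurd h hx⟩
    choose f hf using this
    have : ∀ i, ∃ β < θ, {x | f x i = β} ∈ U := fun i =>
      normal' hU (fun x β => f x i = β)
        (Filter.mem_of_superset h fun x hx => ⟨_, (hf x hx).1 i, rfl⟩)
    choose β hβ1 hβ2 using this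
    obtain ⟨γ, hγ1, hγ2⟩ := hbι β hβ1
    have h3 := hU.2.2.1 ι _ hικ hβ2
    obtain ⟨x, ⟨hx1, hx2⟩, hx3⟩ := Ultrafilter.nonempty_of_mem
      (Filter.inter_mem (Filter.inter_mem h h3) (hU.2.1 γ hγ1))
    obtain ⟨i, hi⟩ := (hf x hx1).2 γ (hx1.1.2.2.2.1 hx3)
    have h4 : f x i = β i := mem_iInter.1 hx2 i
    exact absurd (hγ2 i) (not_lt.2 (h4 ▸ hi))
  -- no injectivity
  have hA : {x | G x ∧ ∃ η < sSup x, ∃ B' ⊆ x, Cof B' (sSup x) ∧ InjOn (d η) B'} ∉ U := by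
    intro h
    have : ∀ x : Set Ordinal.{0}, ∃ η : Ordinal.{0}, ∃ B' : Set Ordinal.{0},
        (G x ∧ ∃ η < sSup x, ∃ B' ⊆ x, Cof B' (sSup x) ∧ InjOn (d η) B') →
        η < sSup x ∧ B' ⊆ x ∧ Cof B' (sSup x) ∧ InjOn (d η) B' := by
      intro x
      by_cases hx : G x ∧ ∃ η < sSup x, ∃ B' ⊆ x, Cof B' (sSup x) ∧ InjOn (d η) B'
      · obtain ⟨η, h1, B', h2, h3⟩ := hx.2
        exact ⟨η, B', fun _ => ⟨h1, h2, h3⟩⟩
      · exact ⟨0, ∅, fun h => absurd h hx⟩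
    choose η B hηB using this
    obtain ⟨γ, hγ, h1⟩ := normal' hU (fun x γ => η x < γ)
      (Filter.mem_of_superset h fun x hx => exists_lt_of_lt_csSup hx.1.1 (hηB x hx).1)
    have he : Nonempty (Iio γ ↪ Iio lam.ord) := by
      rw [← Cardinal.le_def, Cardinal.mk_Iio_ordinal, Cardinal.mk_Iio_ordinal, Cardinal.lift_le,
        card_ord]
      exact Order.lt_succ_iff.1 (lt_ord.1 hγ)
    obtain ⟨e⟩ := he
    obtain ⟨i0, h2⟩ := comp' hU hικ (fun x i => ∃ h : η x < γ, (e ⟨η x, h⟩).1 < s i)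
      (Filter.mem_of_superset h1 fun x hx => by
        obtain ⟨i, hi⟩ := hs3 _ (e ⟨η x, hx⟩).2
        exact ⟨i, hx, hi⟩)
    let Γ := {ξ : Iio γ // (e ξ).1 < s i0}
    have hΓ : #Γ ≤ Cardinal.lift.{1} (s i0).card := by
      rw [← Cardinal.mk_Iio_ordinal]
      exact mk_le_of_injective (f := fun ξ : Γ => (⟨(e ξ.1).1, ξ.2⟩ : Iio (s i0)))
        fun a b hab => Subtype.ext (e.injective (Subtype.ext (Subtype.mk.inj hab)))
    let D : ι → Set Ordinal.{0} := fun m =>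
      {β | β < θ ∧ {x | β ∈ B x} ∈ U ∧ {x | d (η x) β < s m} ∈ U}
    have hD : ∀ m, #(D m) ≤ Cardinal.lift.{1} lam := by
      intro m
      have hinj : #(D m) ≤ #(Set (Γ × Iio (s m))) := by
        refine mk_le_of_injective (f := fun β : D m => {p | d p.1.1.1 β.1 = p.2.1}) ?_
        intro β β' hββ
        obtain ⟨x, ⟨⟨⟨hx1, ⟨hx2, hx3⟩⟩, hx4⟩, hx5⟩, hx6⟩ := Ultrafilter.nonempty_of_mem
          (Filter.inter_mem (Filter.inter_mem (Filter.inter_mem (Filter.inter_mem h h2)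
            β.2.2.1) β'.2.2.1) β.2.2.2)
        have h5 := Set.ext_iff.1 hββ (⟨⟨η x, hx2⟩, hx3⟩, ⟨d (η x) β.1, hx6⟩)
        have h6 : d (η x) β'.1 = d (η x) β.1 := h5.1 rfl
        exact Subtype.ext ((hηB x hx1).2.2.2 hx4 hx5 h6.symm)
      refine hinj.trans ?_
      rw [mk_set, mk_prod, Cardinal.mk_Iio_ordinal, Cardinal.lift_id, Cardinal.lift_id]
      have h7 : (s i0).card * (s m).card < lam :=
        mul_lt_of_lt hl0 (lt_ord.1 (hs1 i0)) (lt_ord.1 (hs1 m))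
      calc (2 : Cardinal.{1}) ^ (#Γ * Cardinal.lift.{1} (s m).card)
          ≤ 2 ^ (Cardinal.lift.{1} (s i0).card * Cardinal.lift.{1} (s m).card) :=
            power_le_power_left two_ne_zero (mul_le_mul' hΓ le_rfl)
        _ = Cardinal.lift.{1} (2 ^ ((s i0).card * (s m).card)) := by simp
        _ ≤ Cardinal.lift.{1} lam := Cardinal.lift_le.2 (hl.isStrongPrelimit h7).le
    choose g hg1 hg2 using fun m => bdd hl0 (s := D m) (fun a ha => ha.1) (hD m)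
    obtain ⟨γ', hγ1, hγ2⟩ := hbι g hg1
    obtain ⟨β, hβ, h3⟩ := normal' hU (fun x β => β ∈ B x ∧ γ' < β) (by
      filter_upwards [h, hU.2.1 γ' hγ1] with x hx hx'
      obtain ⟨-, k2, k3, -⟩ := hηB x hx
      have k4 : γ' < sSup (B x) := by rw [k3.2]; exact hx.1.2.2.2.1 hx'
      have k5 : (B x).Nonempty := by
        by_contra k
        rw [not_nonempty_iff_eq_empty.1 k] at k4
        simp at k4
      obtain ⟨b, hb1, hb2⟩ := exists_lt_of_lt_csSup k5 k4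
      exact ⟨b, k2 hb1, hb1, hb2⟩)
    obtain ⟨m, hm⟩ := comp' hU hικ (fun x m => d (η x) β < s m)
      (Filter.mem_of_superset h1 fun x hx => hs3 _ (hd _ (lt_trans hx hγ) _ hβ))
    have hβD : β ∈ D m := ⟨hβ, Filter.mem_of_superset h3 fun x hx => hx.1, hm⟩
    obtain ⟨x, hx⟩ := Ultrafilter.nonempty_of_mem h3
    exact absurd ((hg2 m β hβD).trans (hγ2 m)) (not_lt.2 hx.2.le)
  obtain ⟨x, ⟨hx1, hx2⟩, hx3⟩ := Ultrafilter.nonempty_of_mem
    (Filter.inter_mem (Filter.inter_mem hG (Ultrafilter.compl_mem_iff_notMem.2 hB))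
      (Ultrafilter.compl_mem_iff_notMem.2 hA))
  refine ⟨sSup x, ⟨⟨hx1.2.2.1, fun h => hx2 ⟨hx1, h⟩⟩, fun h => hx3 ⟨hx1, ?_⟩⟩, hx1.2.2.2.2⟩
  exact h.2 x ⟨hx1.2.2.2.1, rfl⟩

theorem result :
    (∀ (κ lam : Cardinal.{0}) (U : Ultrafilter (Set Ordinal.{0})), lam.IsStrongLimit →
      lam.ord.cof < κ → κ ≤ lam → SCMeasure κ (Order.succ lam).ord U → Q lam) ∧
    (∀ κ : Cardinal.{0}, Supercompact κ →
      ∃ lam : Cardinal.{0}, ℵ₀ ≤ lam ∧ lam.ord.cof < lam ∧ Q lam) := by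
  refine ⟨fun κ lam U h1 h2 h3 h4 => main h1 h2 h3 h4, fun κ hκ => ?_⟩
  let a : ℕ → Cardinal.{0} := fun n => (fun c => 2 ^ c)^[n] κ
  have ha : ∀ n, a (n + 1) = 2 ^ a n := fun n => Function.iterate_succ_apply' _ _ _
  have hle : ∀ n, a n ≤ ⨆ n, a n := fun n => le_ciSup bddAbove_of_small n
  have hlt : ∀ n, a n < ⨆ n, a n := fun n =>
    ((cantor _).trans_eq (ha n).symm).trans_le (hle (n + 1))
  have hsl : (⨆ n, a n).IsStrongLimit := by
    refine ⟨(zero_le.trans_lt (hlt 0)).ne', fun x hx => ?_⟩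
    obtain ⟨n, hn⟩ := exists_lt_of_lt_ciSup hx
    exact ((power_le_power_left two_ne_zero hn.le).trans_eq (ha n).symm).trans_lt (hlt (n + 1))
  have hcof : (⨆ n, a n).ord.cof < κ := by
    refine lt_of_le_of_lt ?_ hκ.1
    by_contra h
    push Not at h
    exact (iSup_lt_of_lt_cof_ord (by simpa using h) hlt).false
  have hκl : κ ≤ ⨆ n, a n := hle 0
  obtain ⟨U, hU⟩ := hκ.2 _ (hκl.trans (Order.le_succ _))
  exact ⟨_, hsl.aleph0_le, hcof.trans_le hκl, main hsl hcof hκl hU⟩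

end Pool.Agent.Results.MP_5f3b23_lc.Supercompact
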